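import Pool.Agent.Helper67.CO.Final

/-!
# Amalgams along a subgroup with a cyclic overlap

Let the image of `A` in the second factor have a cyclic overlap with a conjugate. Then, for every
embedding of `A` in a first factor with a virtual fibration which distinguishes the two elements of
the overlap, the amalgam has a finitely presented nonseparable subgroup.
-/

open Helper67.CO Helper85.NS Monoid Function

namespace Pool.Agent.Results.MP_fc0d7e_gt.CyclicOverlap

theorem result (A Γ₁ Γ₂ : Type) [Group A] [Group Γ₁] [Group Γ₂] (i₁ : A →* Γ₁) (i₂ : A →* Γ₂)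
    (hi₁ : Injective i₁) (hi₂ : Injective i₂) (A₀ : Subgroup A) (z z' : A₀)
    (h : CyclicOverlap i₂ A₀ z z') (K : Subgroup Γ₁) (χ : K →* Multiplicative ℤ)
    (hfp : Group.IsFinitelyPresented χ.ker) (hd : Distinguishes i₁ A₀ (z : A) (z' : A) χ) :
    ∃ H : Subgroup (Amalgam i₁ i₂), Nonempty (H ≃* Coprod χ.ker (Multiplicative ℤ)) ∧
      Group.IsFinitelyPresented H ∧ ¬ Separable H :=
  main_overlap i₁ i₂ hi₁ hi₂ A₀ z z' h K χ hfp hd

end Pool.Agent.Results.MP_fc0d7e_gt.CyclicOverlap
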