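import Pool.Agent.Helper85.FI.Final

/-!
# Amalgams along subgroups of finite index: a criterion

For an edge group of finite index all finitely presented subgroups of the amalgam are separable
if and only if the edge group is, if and only if a subgroup of finite index of the edge group is
normal in the amalgam.
-/

open Helper85.NS Helper85.FI Function

namespace Pool.Agent.Results.MP_fc0d7e_gt.FiniteIndexCriterion

theorem result (A Γ₁ Γ₂ : Type) [Group A] [Group Γ₁] [Group Γ₂] (i₁ : A →* Γ₁) (i₂ : A →* Γ₂)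
    (hi₁ : Injective i₁) (hi₂ : Injective i₂) (h1 : i₁.range.FiniteIndex)
    (h2 : i₂.range.FiniteIndex) (hfp : Group.IsFinitelyPresented Γ₁) (hfg : Group.FG Γ₂)
    (hL : LERF Γ₁) (hB : ∀ B : Subgroup A, B.FiniteIndex →
      Subgroup.center B = ⊥ ∧ (MulAut.conj : B →* MulAut B).range.FiniteIndex) :
    ((∀ H : Subgroup (Amalgam i₁ i₂), Group.IsFinitelyPresented H → Separable H) ↔
      Separable (edge i₁ i₂).range) ∧
    (Separable (edge i₁ i₂).range ↔
      ∃ B : Subgroup A, B.FiniteIndex ∧ (B.map (edge i₁ i₂)).Normal) :=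
  final.2 A Γ₁ Γ₂ i₁ i₂ hi₁ hi₂ h1 h2 hfp hfg hL hB

end Pool.Agent.Results.MP_fc0d7e_gt.FiniteIndexCriterion
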