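import Pool.Agent.Helper85.NS.PartOne

/-!
# Finitely presented nonseparable subgroups of amalgams along free products

For every pair of embeddings of a free product `A = B ∗ C` in two groups (the first with a virtual
fibration which does not kill given elements of `B` and `C`) one partial conjugation of the second
embedding gives an amalgam with a finitely presented nonseparable subgroup.
-/

open Helper85.NS Monoid Function

namespace Pool.Agent.Results.MP_fc0d7e_gt.FreeProductEdge

theorem result (B C Γ₁ : Type) [Group B] [Group C] [Group Γ₁] (Γ₁' : Subgroup Γ₁)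
    (χ : Γ₁' →* Multiplicative ℤ) (hχ : Group.IsFinitelyPresented χ.ker)
    (i₁ : Coprod B C →* Γ₁) (hi₁ : Injective i₁) (x : B) (z : C)
    (hx : Detects χ (i₁ (Coprod.inl x))) (hz : Detects χ (i₁ (Coprod.inr z))) :
    ∃ (p : ℕ) (q : ℤ), 0 < p ∧ q ≠ 0 ∧
      ∀ (Γ₂ : Type) [Group Γ₂] (j : Coprod B C →* Γ₂), Injective j →
        Injective (pc j x z p q) ∧ (Malnormal j.range → Malnormal (pc j x z p q).range) ∧
        (∀ f : Γ₂ →* PSL2, ConvexCocompact (f.comp j) →
          ConvexCocompact (f.comp (pc j x z p q))) ∧
        HasNonseparable (Amalgam i₁ (pc j x z p q)) :=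
  partOne B C Γ₁ Γ₁' χ hχ i₁ hi₁ x z hx hz

end Pool.Agent.Results.MP_fc0d7e_gt.FreeProductEdge
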