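import Pool.Agent.Helper85.NS.Final

/-!
# Finitely presented nonseparable subgroups of amalgams along free groups

For every embedding of a free group of rank at least two in the first group (with a virtual
fibration which does not kill it) and for every nonabelian discrete torsion-free subgroup of
`PSL₂(ℂ)` as second group there is a geometrically finite embedding in the second group such that
the amalgam contains a finitely presented nonseparable subgroup.
-/

open Helper85.NS Function

namespace Pool.Agent.Results.MP_fc0d7e_gt.SchottkyEdge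

theorem result (r : ℕ) {Γ₁ : Type} [Group Γ₁] (Γ₁' : Subgroup Γ₁)
    (χ : Γ₁' →* Multiplicative ℤ) (hχ : Group.IsFinitelyPresented χ.ker)
    (i₁ : FreeGroup (Fin r) →* Γ₁) (hi₁ : Injective i₁)
    (h : ∃ (e : FreeGroup (Fin r) ≃* FreeGroup (Fin r)) (b k : Fin r), b ≠ k ∧
      Detects χ (i₁ (e (FreeGroup.of b))) ∧ Detects χ (i₁ (e (FreeGroup.of k))))
    (Γ₂ : Subgroup PSL2) (hd : Discrete Γ₂) (ht : TorsionFree Γ₂) (hna : Nonabelian Γ₂) :
    ∃ i₂ : FreeGroup (Fin r) →* Γ₂, Injective i₂ ∧
      GeometricallyFinite (i₂.range.map Γ₂.subtype) ∧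
      (∀ a, a ≠ 1 → Loxodromic (i₂ a)) ∧
      ((∃ ρ : Γ₂ →* FreeGroup (Fin r), Surjective ρ ∧ ¬ Injective ρ) → Malnormal i₂.range) ∧
      HasNonseparable (Amalgam i₁ i₂) :=
  main r Γ₁' χ hχ i₁ hi₁ h Γ₂ hd ht hna

end Pool.Agent.Results.MP_fc0d7e_gt.SchottkyEdge
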